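import Mathlib

set_option autoImplicit false

namespace Pool.Agent.W_MP_2c7c9d_co

open Finset

/-- If the `i`-th unit vector is a rational combination of (indicator vectors of) zero-sum
subfamilies of `a`, then `a i` is killed by a positive integer `≤ |ι|!`. -/
lemma exists_small_multiple {ι : Type*} [Fintype ι] [DecidableEq ι] {G : Type*} [AddCommGroup G]
    (a : ι → G) (i : ι) (R : Set (ι → ℚ))
    (hR : ∀ v ∈ R, ∃ S : Finset ι, ∑ j ∈ S, a j = 0 ∧ v = fun j => if j ∈ S then (1 : ℚ) else 0)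
    (hi : (Pi.single i 1 : ι → ℚ) ∈ Submodule.span ℚ R) :
    ∃ m : ℕ, 0 < m ∧ m ≤ (Fintype.card ι).factorial ∧ m • a i = 0 := by
  obtain ⟨B, hBR, hBspan, hBli⟩ := exists_linearIndependent ℚ R
  obtain ⟨t, ht⟩ : ∃ t : Set (ι → ℚ), t = R ∪ Set.range (fun j => (Pi.single j 1 : ι → ℚ)) :=
    ⟨_, rfl⟩
  obtain ⟨b, hbt, hBb, htb, hbli⟩ := exists_linearIndepOn_id_extension
    (K := ℚ) (V := ι → ℚ) (s := B) (t := t) hBli (by rw [ht]; exact fun x hx => Or.inl (hBR hx))
  have hbtop : ⊤ ≤ Submodule.span ℚ (Set.range (Subtype.val : b → (ι → ℚ))) := by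
    rw [Subtype.range_coe]
    have h1 : Set.range (fun j => (Pi.single j 1 : ι → ℚ)) ⊆ Submodule.span ℚ b := by
      intro x hx
      apply htb
      rw [ht]
      exact Or.inr hx
    have h2 : Submodule.span ℚ (Set.range (fun j => (Pi.single j 1 : ι → ℚ))) = ⊤ := by
      have := (Pi.basisFun ℚ ι).span_eq
      convert this using 2
      ext j
      simp [Pi.basisFun_apply]
    rw [← h2]
    exact Submodule.span_le.2 h1
  let bas : Module.Basis b ℚ (ι → ℚ) := Module.Basis.mk hbli hbtop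
  let e : ι ≃ b := (Pi.basisFun ℚ ι).indexEquiv bas
  let bas' : Module.Basis ι ℚ (ι → ℚ) := bas.reindex e.symm
  have hbas' : ∀ k, bas' k = (e k : ι → ℚ) := by
    intro k
    simp [bas', bas]
  have hint : ∀ v ∈ t, ∃ z : ι → ℤ, (∀ j, (z j : ℚ) = v j) ∧ (∀ j, |z j| ≤ 1) ∧
      (v ∈ R → ∑ j, z j • a j = 0) := by
    intro v hv
    by_cases hvR : v ∈ R
    · obtain ⟨S, hS1, hS2⟩ := hR v hvR
      refine ⟨fun j => if j ∈ S then 1 else 0, ?_, ?_, ?_⟩
      · intro j
        rw [hS2]
        by_cases hj : j ∈ S <;> simp [hj]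
      · intro j
        by_cases hj : j ∈ S <;> simp [hj]
      · intro _
        rw [← hS1]
        simp [Finset.sum_ite_mem]
    · rw [ht] at hv
      rcases hv with hv | ⟨j, rfl⟩
      · exact absurd hv hvR
      · refine ⟨Pi.single j 1, ?_, ?_, fun h => absurd h hvR⟩
        · intro k
          by_cases hk : k = j
          · subst hk; simp
          · simp [hk]
        · intro k
          by_cases hk : k = j
          · subst hk; simp
          · simp [hk]
  choose! z hz1 hz2 hz3 using hint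
  let Qz : Matrix ι ι ℤ := fun k j => z (e k : ι → ℚ) j
  have het : ∀ k, (e k : ι → ℚ) ∈ t := fun k => hbt (e k).2
  let Q : Matrix ι ι ℚ := Qz.map (Int.castRingHom ℚ)
  have hQrow : ∀ k, Q.row k = bas' k := by
    intro k
    rw [hbas']
    ext j
    exact hz1 _ (het k) j
  have hQunit : IsUnit Q := by
    rw [← Matrix.linearIndependent_rows_iff_isUnit]
    have : Q.row = bas' := funext hQrow
    rw [this]
    exact bas'.linearIndependent
  have hdetQ : Q.det ≠ 0 := by
    have := (Matrix.isUnit_iff_isUnit_det Q).1 hQunit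
    exact this.ne_zero
  have hdet : Qz.det ≠ 0 := by
    intro h
    apply hdetQ
    have : Q.det = ((Qz.det : ℤ) : ℚ) := by
      have := (RingHom.map_det (Int.castRingHom ℚ) Qz).symm
      simpa [Q] using this
    rw [this, h]
    simp
  have hbound : |Qz.det| ≤ (Fintype.card ι).factorial := by
    have := Matrix.det_le (A := Qz) (abv := AbsoluteValue.abs) (x := (1 : ℤ))
      (by intro k j; exact hz2 _ (het k) j)
    simpa using this
  -- adjugate relation
  have hadj : Qz.adjugate * Qz = Qz.det • (1 : Matrix ι ι ℤ) := Matrix.adjugate_mul Qz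
  -- rational version of the i-th row
  have hrow : ∑ k, ((Qz.adjugate i k : ℤ) : ℚ) • bas' k =
      ((Qz.det : ℤ) : ℚ) • (Pi.single i 1 : ι → ℚ) := by
    ext j
    have h1 := congrFun (congrFun hadj i) j
    rw [Matrix.mul_apply] at h1
    have h2 : (∑ k, ((Qz.adjugate i k : ℤ) : ℚ) • bas' k) j =
        ((∑ k, Qz.adjugate i k * Qz k j : ℤ) : ℚ) := by
      rw [Finset.sum_apply]
      push_cast
      refine Finset.sum_congr rfl fun k _ => ?_
      rw [Pi.smul_apply, smul_eq_mul, ← hQrow k]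
      rfl
    rw [h2, h1]
    by_cases hij : j = i
    · subst hij; simp
    · simp [hij, Matrix.one_apply_ne (Ne.symm hij)]
  have hzero : ∀ k, (e k : ι → ℚ) ∉ B → Qz.adjugate i k = 0 := by
    intro k hk
    have hmem : ((Qz.det : ℤ) : ℚ) • (Pi.single i 1 : ι → ℚ) ∈
        Submodule.span ℚ (bas' '' {k | (e k : ι → ℚ) ∈ B}) := by
      apply Submodule.smul_mem
      have h1 : B ⊆ bas' '' {k | (e k : ι → ℚ) ∈ B} := by
        intro v hv
        refine ⟨e.symm ⟨v, hBb hv⟩, ?_, ?_⟩
        · simpa using hv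
        · rw [hbas']; simp
      have h2 := Submodule.span_mono (R := ℚ) h1
      rw [hBspan] at h2
      exact h2 hi
    rw [bas'.mem_span_image] at hmem
    by_contra hne
    have h3 : k ∈ (bas'.repr (((Qz.det : ℤ) : ℚ) • (Pi.single i 1 : ι → ℚ))).support := by
      rw [← hrow, Finsupp.mem_support_iff, bas'.repr_sum_self]
      exact_mod_cast hne
    exact hk (hmem h3)
  have hfin : (Qz.det : ℤ) • a i = 0 := by
    have h1 : ∑ j, ((Qz.adjugate * Qz) i j) • a j = Qz.det • a i := by
      rw [hadj]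
      rw [Finset.sum_eq_single i]
      · simp
      · intro j _ hj
        simp [Matrix.one_apply_ne (Ne.symm hj)]
      · simp
    rw [← h1]
    have h2 : ∀ j, ((Qz.adjugate * Qz) i j) • a j =
        ∑ k, Qz.adjugate i k • (Qz k j • a j) := by
      intro j
      rw [Matrix.mul_apply, Finset.sum_smul]
      refine Finset.sum_congr rfl fun k _ => ?_
      rw [mul_smul]
    rw [Finset.sum_congr rfl fun j _ => h2 j, Finset.sum_comm]
    refine Finset.sum_eq_zero fun k _ => ?_
    rw [← Finset.smul_sum]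
    by_cases hk : (e k : ι → ℚ) ∈ B
    · have := hz3 _ (het k) (hBR hk)
      rw [this, smul_zero]
    · rw [hzero k hk, zero_smul]
  refine ⟨Qz.det.natAbs, Int.natAbs_pos.2 hdet, ?_, ?_⟩
  · have := hbound
    rw [Int.abs_eq_natAbs] at this
    exact_mod_cast this
  · rcases Int.natAbs_eq Qz.det with h | h
    · rw [h] at hfin
      simpa using hfin
    · rw [h] at hfin
      simpa using hfin

/-- Existence of a rational weight function compatible with all zero-sum subsets of `A`. -/
lemma exists_weight {G : Type*} [AddCommGroup G] (A B : Finset G) (H : AddSubgroup G)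
    (hB : ∀ x, x ∈ B ↔ x ∈ A ∧ x ∉ H) :
    ∃ φ : G → ℚ, (∀ S ⊆ A, ∑ x ∈ S, x = 0 → ∑ x ∈ S, φ x = 0) ∧
      ∀ a ∈ A, (∀ m : ℕ, 0 < m → m ≤ B.card.factorial → m • a ∉ H) → φ a ≠ 0 := by
  classical
  let a : {x // x ∈ B} → G ⧸ H := fun x => QuotientAddGroup.mk x.1
  let R : Set ({x // x ∈ B} → ℚ) := {v | ∃ S : Finset {x // x ∈ B}, ∑ j ∈ S, a j = 0 ∧
    v = fun j => if j ∈ S then (1 : ℚ) else 0}
  let W := Submodule.span ℚ R
  let J := {x : {x // x ∈ B} // ∀ m : ℕ, 0 < m → m ≤ B.card.factorial → m • x.1 ∉ H}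
  have hW : ∀ i : J, W.mkQ (Pi.single i.1 1 : {x // x ∈ B} → ℚ) ≠ 0 := by
    intro i h
    rw [Submodule.mkQ_apply, Submodule.Quotient.mk_eq_zero] at h
    obtain ⟨m, hm1, hm2, hm3⟩ := exists_small_multiple a i.1 R (fun v hv => hv) h
    rw [Fintype.card_coe] at hm2
    apply i.2 m hm1 hm2
    rw [← QuotientAddGroup.eq_zero_iff, QuotientAddGroup.mk_nsmul]
    exact hm3
  obtain ⟨g, hg⟩ := Module.exists_dual_forall_apply_ne_zero (K := ℚ)
    (fun i : J => W.mkQ (Pi.single i.1 1 : {x // x ∈ B} → ℚ)) hW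
  refine ⟨fun x => if h : x ∈ B then g (W.mkQ (Pi.single ⟨x, h⟩ 1)) else 0, ?_, ?_⟩
  · intro S hSA hS
    let S' : Finset {x // x ∈ B} := Finset.univ.filter (fun x => x.1 ∈ S)
    have hS' : ∀ {K : Type} [AddCommMonoid K] (ψ : G → K), (∀ x ∈ S, x ∉ B → ψ x = 0) →
        ∑ x ∈ S, ψ x = ∑ x ∈ S', ψ x.1 := by
      intro K _ ψ hψ
      rw [← Finset.sum_filter_add_sum_filter_not S (fun x => x ∈ B)]
      have h1 : ∑ x ∈ S.filter (fun x => ¬ x ∈ B), ψ x = 0 := by
        apply Finset.sum_eq_zero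
        intro x hx
        rw [Finset.mem_filter] at hx
        exact hψ x hx.1 hx.2
      rw [h1, add_zero]
      refine (Finset.sum_bij (fun x _ => x.1) ?_ ?_ ?_ ?_).symm
      · intro x hx
        rw [Finset.mem_filter]
        exact ⟨by simpa [S'] using hx, x.2⟩
      · intro x _ y _ hxy
        exact Subtype.ext hxy
      · intro x hx
        rw [Finset.mem_filter] at hx
        exact ⟨⟨x, hx.2⟩, by simpa [S'] using hx.1, rfl⟩
      · intro x _
        rfl
    have hS'' : ∑ x ∈ S', a x = 0 := by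
      have h1 : ∑ x ∈ S, (QuotientAddGroup.mk x : G ⧸ H) = 0 := by
        have h2 := congrArg (QuotientAddGroup.mk' H) hS
        rw [map_sum, map_zero] at h2
        exact h2
      rw [← h1]
      rw [← Finset.sum_filter_add_sum_filter_not S (fun x => x ∈ B)]
      have h3 : ∑ x ∈ S.filter (fun x => ¬ x ∈ B), (QuotientAddGroup.mk x : G ⧸ H) = 0 := by
        apply Finset.sum_eq_zero
        intro x hx
        rw [Finset.mem_filter] at hx
        rw [QuotientAddGroup.eq_zero_iff]
        by_contra hxH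
        exact hx.2 ((hB x).2 ⟨hSA hx.1, hxH⟩)
      rw [h3, add_zero]
      refine Finset.sum_bij (fun x _ => x.1) ?_ ?_ ?_ ?_
      · intro x hx
        rw [Finset.mem_filter]
        exact ⟨by simpa [S'] using hx, x.2⟩
      · intro x _ y _ hxy
        exact Subtype.ext hxy
      · intro x hx
        rw [Finset.mem_filter] at hx
        exact ⟨⟨x, hx.2⟩, by simpa [S'] using hx.1, rfl⟩
      · intro x _
        rfl
    rw [hS' _ (fun x _ hx => dif_neg hx)]
    have h1 : ∀ x ∈ S', (if h : x.1 ∈ B then g (W.mkQ (Pi.single ⟨x.1, h⟩ 1)) else 0) =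
        g (W.mkQ (Pi.single x 1)) := by
      intro x _
      rw [dif_pos x.2]
    rw [Finset.sum_congr rfl h1, ← map_sum, ← map_sum]
    have h2 : ∑ x ∈ S', (Pi.single x 1 : {x // x ∈ B} → ℚ) = fun j => if j ∈ S' then 1 else 0 := by
      ext j
      rw [Finset.sum_apply]
      simp [Pi.single_apply]
    rw [h2]
    have h3 : (fun j => if j ∈ S' then (1 : ℚ) else 0) ∈ W :=
      Submodule.subset_span ⟨S', hS'', rfl⟩
    have h4 : W.mkQ (fun j => if j ∈ S' then (1 : ℚ) else 0) = 0 := by
      rw [Submodule.mkQ_apply, Submodule.Quotient.mk_eq_zero]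
      exact h3
    rw [h4, map_zero]
  · intro x hx hxE
    have hxB : x ∈ B := by
      rw [hB]
      refine ⟨hx, ?_⟩
      have := hxE 1 Nat.one_pos (Nat.succ_le_of_lt (Nat.factorial_pos _))
      rwa [one_nsmul] at this
    beta_reduce
    rw [dif_pos hxB]
    exact hg ⟨⟨x, hxB⟩, hxE⟩

end Pool.Agent.W_MP_2c7c9d_co
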