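import Mathlib

/-!
# Partial sums of a list, and two elementary facts about levels

`f : G →+ ℚ` is a homomorphism; the value `f x` is called the *level* of the point `x`.
-/

set_option autoImplicit false

namespace Pool.Agent.W_MP_2c7c9d_co

open Finset

section
variable {G : Type*} [AddCommGroup G]

/-- partial sums of `l` started at `u` (the starting point `u` itself is not listed). -/
def ps : G → List G → List G
  | _, [] => []
  | u, a :: l => (u + a) :: ps (u + a) l

@[simp] lemma ps_nil (u : G) : ps u [] = [] := rfl
@[simp] lemma ps_cons (u a : G) (l : List G) : ps u (a :: l) = (u + a) :: ps (u + a) l := rfl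

lemma ps_append (u : G) (l₁ l₂ : List G) :
    ps u (l₁ ++ l₂) = ps u l₁ ++ ps (u + l₁.sum) l₂ := by
  induction l₁ generalizing u with
  | nil => simp
  | cons a l ih => simp [ih, add_assoc]

/-- all partial sums of `l` from `u` avoid `M` -/
def Avoid (M : Finset G) (u : G) (l : List G) : Prop := ∀ x ∈ ps u l, x ∉ M

lemma mem_ps {u x : G} {l : List G} (hx : x ∈ ps u l) :
    ∃ l₁ l₂, l = l₁ ++ l₂ ∧ x = u + l₁.sum ∧ l₁ ≠ [] := by
  induction l generalizing u with
  | nil => simp at hx
  | cons a l ih =>
    simp only [ps_cons, List.mem_cons] at hx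
    rcases hx with rfl | hx
    · exact ⟨[a], l, by simp, by simp, by simp⟩
    · obtain ⟨l₁, l₂, h1, h2, _⟩ := ih hx
      exact ⟨a :: l₁, l₂, by simp [h1], by simp [h2, add_assoc], by simp⟩

lemma last_mem_ps (u : G) (l : List G) (hl : l ≠ []) : u + l.sum ∈ ps u l := by
  induction l generalizing u with
  | nil => exact absurd rfl hl
  | cons a l ih =>
    by_cases h : l = []
    · subst h; simp
    · have := ih (u + a) h
      simp only [ps_cons, List.mem_cons, List.sum_cons]
      right
      rw [← add_assoc]
      exact this

lemma ps_length (u : G) (l : List G) : (ps u l).length = l.length := by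
  induction l generalizing u with
  | nil => rfl
  | cons a l ih => simp [ih]

lemma level_ge (f : G →+ ℚ) {u x : G} {l : List G} (hl : ∀ a ∈ l, 0 ≤ f a) (hx : x ∈ ps u l) :
    f u ≤ f x := by
  induction l generalizing u with
  | nil => simp at hx
  | cons a l ih =>
    simp only [ps_cons, List.mem_cons] at hx
    have ha := hl a (by simp)
    rcases hx with rfl | hx
    · simp [ha]
    · have := ih (fun b hb => hl b (by simp [hb])) hx
      rw [map_add] at this
      linarith

lemma level_le (f : G →+ ℚ) {u x : G} {l : List G} (hl : ∀ a ∈ l, 0 ≤ f a) (hx : x ∈ ps u l) :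
    f x ≤ f u + f l.sum := by
  induction l generalizing u with
  | nil => simp at hx
  | cons a l ih =>
    simp only [ps_cons, List.mem_cons] at hx
    have ha := hl a (by simp)
    have hs : 0 ≤ f l.sum := by
      rw [map_list_sum]
      apply List.sum_nonneg
      intro y hy
      obtain ⟨b, hb, rfl⟩ := List.mem_map.1 hy
      exact hl b (by simp [hb])
    rcases hx with rfl | hx
    · simp [hs]
    · have := ih (fun b hb => hl b (by simp [hb])) hx
      rw [map_add] at this
      rw [List.sum_cons, map_add]
      linarith

lemma level_gt (f : G →+ ℚ) {u x : G} {l : List G} (hl : ∀ a ∈ l, 0 < f a) (hx : x ∈ ps u l) :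
    f u < f x := by
  cases l with
  | nil => simp at hx
  | cons a l =>
    simp only [ps_cons, List.mem_cons] at hx
    have ha : 0 < f a := hl a (by simp)
    rcases hx with rfl | hx
    · simp [ha]
    · have := level_ge f (fun b hb => (hl b (by simp [hb])).le) hx
      rw [map_add] at this
      linarith

lemma level_eq (f : G →+ ℚ) {u x : G} {l : List G} (hl : ∀ a ∈ l, f a = 0) (hx : x ∈ ps u l) :
    f x = f u := by
  induction l generalizing u with
  | nil => simp at hx
  | cons a l ih =>
    simp only [ps_cons, List.mem_cons] at hx
    have ha := hl a (by simp)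
    rcases hx with rfl | hx
    · simp [ha]
    · have := ih (fun b hb => hl b (by simp [hb])) hx
      rw [map_add, ha, add_zero] at this
      exact this

end

end Pool.Agent.W_MP_2c7c9d_co
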