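import Pool.Agent.W_MP_2c7c9d_co.Basic

/-!
# Inserting kernel elements into a path

`l` is a list of elements of positive level, and `R` a set of elements of level `0`.  The elements
of `R` are inserted greedily: at each level about half of the remaining ones.
-/

set_option autoImplicit false

namespace Pool.Agent.W_MP_2c7c9d_co

open Finset

section
variable {G : Type*} [AddCommGroup G] [DecidableEq G]

omit [DecidableEq G] in
lemma ps_nodup_of_pos (f : G →+ ℚ) (l : List G) (hl : ∀ p ∈ l, 0 < f p) (u : G) :
    (ps u l).Nodup := by
  induction l generalizing u with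
  | nil => simp
  | cons a l ih =>
    have hl' : ∀ p ∈ l, 0 < f p := fun b hb => hl b (by simp [hb])
    rw [ps_cons, List.nodup_cons]
    refine ⟨?_, ih hl' (u + a)⟩
    intro h
    exact lt_irrefl _ (level_gt f hl' h)

/-- the greedy block -/
lemma greedy (f : G →+ ℚ) (M : Finset G) (hinj : Set.InjOn f M) (u p : G) (R : Finset G)
    (hR : ∀ x ∈ R, f x = 0) (h0 : (0 : G) ∉ R) :
    ∀ k : ℕ, 2 * k + 1 ≤ R.card → ∃ y : List G, y.length = k ∧ y.Nodup ∧ (∀ x ∈ y, x ∈ R) ∧
      (u :: ps u y).Nodup ∧ Avoid M u y ∧ (k = 0 ∨ u + y.sum + p ∉ M) := by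
  intro k
  induction k with
  | zero => intro _; exact ⟨[], by simp, by simp, by simp, by simp, by simp [Avoid], Or.inl rfl⟩
  | succ k ih =>
    intro hk
    obtain ⟨y, hyl, hynd, hyR, hnd, hav, _⟩ := ih (by omega)
    obtain ⟨e, he⟩ : ∃ e, e = u + y.sum := ⟨_, rfl⟩
    have hemem : e ∈ (u :: ps u y) := by
      by_cases hy : y = []
      · subst hy; simp [he]
      · rw [he]; exact List.mem_cons_of_mem _ (last_mem_ps u y hy)
    -- a good element exists
    obtain ⟨z, hzR, hzy, hz1, hz2, hz3⟩ : ∃ z ∈ R, z ∉ y ∧ e + z ∉ (u :: ps u y) ∧ e + z ∉ M ∧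
        e + z + p ∉ M := by
      by_contra hcon
      push Not at hcon
      have hc0 : (R \ y.toFinset).card = R.card - k := by
        rw [Finset.card_sdiff_of_subset, List.toFinset_card_of_nodup hynd, hyl]
        intro x hx
        exact hyR x (List.mem_toFinset.1 hx)
      have hc1 : ((R \ y.toFinset).filter (fun z => e + z ∈ (u :: ps u y))).card ≤ k := by
        have h1 : ((R \ y.toFinset).filter (fun z => e + z ∈ (u :: ps u y))).card ≤
            ((u :: ps u y).toFinset.erase e).card := by
          refine Finset.card_le_card_of_injOn (fun z => e + z) ?_ ?_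
          · intro z hz
            simp only [Finset.coe_filter, Set.mem_ofPred_eq, Finset.mem_sdiff] at hz
            have hz' := hz
            simp only [Finset.coe_erase, Set.mem_sdiff, Finset.mem_coe, List.mem_toFinset,
              Set.mem_singleton_iff]
            refine ⟨hz'.2, ?_⟩
            intro h
            have : z = 0 := by simpa using h
            exact h0 (this ▸ hz'.1.1)
          · intro z _ z' _ h
            exact add_left_cancel h
        have h2 : ((u :: ps u y).toFinset.erase e).card = k := by
          rw [Finset.card_erase_of_mem (List.mem_toFinset.2 hemem),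
            List.toFinset_card_of_nodup hnd, List.length_cons, ps_length, hyl]
          omega
        omega
      have hc2 : ((R \ y.toFinset).filter (fun z => e + z ∈ M)).card ≤ 1 := by
        rw [Finset.card_le_one]
        intro z hz z' hz'
        simp only [Finset.mem_filter, Finset.mem_sdiff] at hz hz'
        have := hinj hz.2 hz'.2 (by rw [map_add, map_add, hR z hz.1.1, hR z' hz'.1.1])
        exact add_left_cancel this
      have hc3 : ((R \ y.toFinset).filter (fun z => e + z + p ∈ M)).card ≤ 1 := by
        rw [Finset.card_le_one]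
        intro z hz z' hz'
        simp only [Finset.mem_filter, Finset.mem_sdiff] at hz hz'
        have := hinj hz.2 hz'.2 (by
          rw [map_add, map_add, map_add, map_add, hR z hz.1.1, hR z' hz'.1.1])
        exact add_left_cancel (add_right_cancel this)
      have hsub : R \ y.toFinset ⊆ ((R \ y.toFinset).filter (fun z => e + z ∈ (u :: ps u y))) ∪
          (((R \ y.toFinset).filter (fun z => e + z ∈ M)) ∪
            ((R \ y.toFinset).filter (fun z => e + z + p ∈ M))) := by
        intro z hz
        have hz' := Finset.mem_sdiff.1 hz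
        simp only [Finset.mem_union, Finset.mem_filter]
        by_cases a1 : e + z ∈ (u :: ps u y)
        · exact Or.inl ⟨hz, a1⟩
        · by_cases a2 : e + z ∈ M
          · exact Or.inr (Or.inl ⟨hz, a2⟩)
          · have hzy : z ∉ y := fun h => hz'.2 (List.mem_toFinset.2 h)
            exact Or.inr (Or.inr ⟨hz, hcon z hz'.1 hzy a1 a2⟩)
      have h1 := Finset.card_le_card hsub
      have h2 := Finset.card_union_le ((R \ y.toFinset).filter (fun z => e + z ∈ (u :: ps u y)))
        (((R \ y.toFinset).filter (fun z => e + z ∈ M)) ∪
            ((R \ y.toFinset).filter (fun z => e + z + p ∈ M)))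
      have h3 := Finset.card_union_le ((R \ y.toFinset).filter (fun z => e + z ∈ M))
            ((R \ y.toFinset).filter (fun z => e + z + p ∈ M))
      omega
    refine ⟨y ++ [z], by simp [hyl], ?_, ?_, ?_, ?_, Or.inr ?_⟩
    · rw [List.nodup_append]
      refine ⟨hynd, by simp, ?_⟩
      intro a ha b hb hab
      simp only [List.mem_singleton] at hb
      exact hzy (by rw [← hb, ← hab]; exact ha)
    · intro x hx
      rcases List.mem_append.1 hx with hx | hx
      · exact hyR x hx
      · simp only [List.mem_singleton] at hx
        rw [hx]; exact hzR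
    · rw [ps_append, ← he, ps_cons, ps_nil]
      have : u :: (ps u y ++ [e + z]) = (u :: ps u y) ++ [e + z] := rfl
      rw [this, List.nodup_append]
      refine ⟨hnd, by simp, ?_⟩
      intro a ha b hb hab
      simp only [List.mem_singleton] at hb
      exact hz1 (by rw [← hb, ← hab]; exact ha)
    · intro x hx
      rw [ps_append, ← he] at hx
      rcases List.mem_append.1 hx with hx | hx
      · exact hav x hx
      · simp only [ps_cons, ps_nil, List.mem_singleton] at hx
        rw [hx]; exact hz2
    · rw [List.sum_append, List.sum_singleton, ← add_assoc, ← he]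
      exact hz3

/-- a block of at most two elements -/
lemma small_block (f : G →+ ℚ) (M : Finset G) (hinj : Set.InjOn f M) (u : G) (R : Finset G)
    (hR : ∀ x ∈ R, f x = 0) (h0 : (0 : G) ∉ R) (hpm : ∀ x ∈ R, ∀ y ∈ R, x ≠ y → x + y ≠ 0)
    (hc : R.card ≤ 2) (hend : u + ∑ x ∈ R, x ∉ M) :
    ∃ y : List G, (↑y : Multiset G) = R.val ∧ (u :: ps u y).Nodup ∧ Avoid M u y := by
  rcases Nat.lt_or_ge R.card 1 with h | h
  · have : R = ∅ := Finset.card_eq_zero.1 (by omega)
    subst this
    exact ⟨[], by simp, by simp, by simp [Avoid]⟩
  rcases Nat.lt_or_ge R.card 2 with h' | h'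
  · obtain ⟨x, rfl⟩ := Finset.card_eq_one.1 (show R.card = 1 by omega)
    have hx0 : x ≠ 0 := by rintro rfl; simp at h0
    refine ⟨[x], by simp, by simpa using hx0, ?_⟩
    intro z hz
    simp only [ps_cons, ps_nil, List.mem_singleton] at hz
    rw [hz]
    simpa using hend
  · obtain ⟨x, y, hxy, rfl⟩ := Finset.card_eq_two.1 (show R.card = 2 by omega)
    have hx0 : x ≠ 0 := by rintro rfl; simp at h0
    have hy0 : y ≠ 0 := by rintro rfl; simp at h0
    have hxy0 : x + y ≠ 0 := hpm x (by simp) y (by simp) hxy
    have hfx : f x = 0 := hR x (by simp)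
    have hfy : f y = 0 := hR y (by simp)
    rw [Finset.sum_pair hxy] at hend
    have hval : ({x, y} : Finset G).val = x ::ₘ y ::ₘ 0 := by
      rw [Finset.insert_val_of_notMem (by simpa using hxy)]; rfl
    have key : ∀ a b : G, a ≠ 0 → b ≠ 0 → a + b ≠ 0 → u + (a + b) ∉ M → u + a ∉ M →
        (u :: ps u [a, b]).Nodup ∧ Avoid M u [a, b] := by
      intro a b ha hb hab h1 h2
      refine ⟨?_, ?_⟩
      · simp only [ps_cons, ps_nil, List.nodup_cons, List.mem_cons, List.not_mem_nil, or_false,
          not_or, not_false_eq_true, List.nodup_nil, and_true]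
        refine ⟨⟨?_, ?_⟩, ?_⟩
        · intro h; apply ha; simpa using h.symm
        · intro h
          apply hab
          have : u + (a + b) = u + 0 := by rw [← add_assoc, add_zero]; exact h.symm
          exact add_left_cancel this
        · intro h; apply hb; simpa using h.symm
      · intro z hz
        simp only [ps_cons, ps_nil, List.mem_cons, List.not_mem_nil, or_false] at hz
        rcases hz with rfl | rfl
        · exact h2
        · rw [add_assoc]; exact h1
    by_cases hux : u + x ∈ M
    · have huy : u + y ∉ M := by
        intro h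
        exact hxy (add_left_cancel (hinj hux h (by rw [map_add, map_add, hfx, hfy])))
      obtain ⟨k1, k2⟩ := key y x hy0 hx0 (by rwa [add_comm]) (by rwa [add_comm y x]) huy
      refine ⟨[y, x], ?_, k1, k2⟩
      rw [hval, Multiset.cons_swap]; rfl
    · obtain ⟨k1, k2⟩ := key x y hx0 hy0 hxy0 hend hux
      refine ⟨[x, y], ?_, k1, k2⟩
      rw [hval]; rfl

theorem insertion (f : G →+ ℚ) (M : Finset G) (hinj : Set.InjOn f M) :
    ∀ (l : List G) (u : G) (R : Finset G), (∀ p ∈ l, 0 < f p) → (∀ x ∈ R, f x = 0) →
      (0 : G) ∉ R → (∀ x ∈ R, ∀ y ∈ R, x ≠ y → x + y ≠ 0) → R.card ≤ 2 ^ l.length + 1 →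
      u + ∑ x ∈ R, x ∉ M → Avoid M (u + ∑ x ∈ R, x) l →
      ∃ L : List G, (↑L : Multiset G) = ↑l + R.val ∧ (u :: ps u L).Nodup ∧ Avoid M u L := by
  intro l
  induction l with
  | nil =>
    intro u R _ hR h0 hpm hc hend _
    obtain ⟨y, h1, h2, h3⟩ := small_block f M hinj u R hR h0 hpm (by simpa using hc) hend
    exact ⟨y, by rw [h1]; simp, h2, h3⟩
  | cons p l ih =>
    intro u R hl hR h0 hpm hc hend hav
    have hp : 0 < f p := hl p (by simp)
    -- joining a block of kernel elements with a higher path
    have join : ∀ (y : List G) (v : G) (K : List G), (∀ x ∈ y, f x = 0) → (u :: ps u y).Nodup →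
        v = u + y.sum → (ps v K).Nodup → (∀ x ∈ ps v K, f u < f x) →
        (u :: ps u (y ++ K)).Nodup := by
      intro y v K hy h1 h2 h3 h4
      rw [ps_append, ← h2]
      have : u :: (ps u y ++ ps v K) = (u :: ps u y) ++ ps v K := rfl
      rw [this, List.nodup_append]
      refine ⟨h1, h3, ?_⟩
      intro a ha b hb hab
      subst hab
      have h5 := h4 a hb
      simp only [List.mem_cons] at ha
      rcases ha with ha | ha
      · rw [ha] at h5; exact lt_irrefl _ h5
      · rw [level_eq f hy ha] at h5; exact lt_irrefl _ h5
    rcases Nat.lt_or_ge 2 R.card with hbig | hsmall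
    · -- at least three elements: greedy block
      obtain ⟨k, hk⟩ : ∃ k, k = (R.card - 1) / 2 := ⟨_, rfl⟩
      obtain ⟨y, hyl, hynd, hyR, hnd, hyav, hyp⟩ := greedy f M hinj u p R hR h0 k (by omega)
      have hyp' : u + y.sum + p ∉ M := by
        rcases hyp with h | h
        · omega
        · exact h
      have hR' : ∀ x ∈ R \ y.toFinset, x ∈ R := fun x hx => (Finset.mem_sdiff.1 hx).1
      have hyy : ∀ x ∈ y, f x = 0 := fun x hx => hR x (hyR x hx)
      have hval : R.val = ↑y + (R \ y.toFinset).val := by
        have h1 : y.toFinset ⊆ R := fun x hx => hyR x (List.mem_toFinset.1 hx)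
        have h2 : (↑y : Multiset G) = y.toFinset.val := by
          rw [List.toFinset_val, hynd.dedup]
        rw [h2, Finset.sdiff_val, add_tsub_cancel_of_le (Finset.val_le_iff.2 h1)]
      have hsumR : ∑ x ∈ R, x = y.sum + ∑ x ∈ R \ y.toFinset, x := by
        have h1 := congrArg Multiset.sum hval
        rw [Multiset.sum_add, Multiset.sum_coe, Finset.sum_val, Finset.sum_val] at h1
        simpa using h1
      have hcard : (R \ y.toFinset).card = R.card - k := by
        rw [Finset.card_sdiff_of_subset, List.toFinset_card_of_nodup hynd, hyl]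
        intro x hx
        exact hyR x (List.mem_toFinset.1 hx)
      have hpt : u + y.sum + p + ∑ x ∈ R \ y.toFinset, x = u + ∑ x ∈ R, x + p := by
        rw [hsumR]; abel
      obtain ⟨L, g1, g2, g3⟩ := ih (u + y.sum + p) (R \ y.toFinset)
        (fun q hq => hl q (by simp [hq])) (fun x hx => hR x (hR' x hx))
        (fun h => h0 (hR' _ h)) (fun x hx z hz => hpm x (hR' x hx) z (hR' z hz))
        (by
          rw [hcard]
          rw [List.length_cons, pow_succ] at hc
          omega)
        (by rw [hpt]; exact hav _ (by simp))
        (by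
          rw [hpt]
          intro x hx
          exact hav x (by simp [hx]))
      have hfu' : f (u + y.sum + p) = f u + f p := by
        rw [map_add, map_add]
        have : f y.sum = 0 := by
          rw [map_list_sum]
          apply List.sum_eq_zero
          intro z hz
          obtain ⟨b, hb, rfl⟩ := List.mem_map.1 hz
          exact hyy b hb
        rw [this, add_zero]
      have hL0 : ∀ x ∈ L, 0 ≤ f x := by
        intro x hx
        have : x ∈ (↑l : Multiset G) + (R \ y.toFinset).val := by rw [← g1]; simpa using hx
        rcases Multiset.mem_add.1 this with h | h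
        · exact (hl x (by simp at h; simp [h])).le
        · exact (hR x (hR' x h)).ge
      have hlev : ∀ x ∈ ps (u + y.sum) (p :: L), f u < f x := by
        intro x hx
        simp only [ps_cons, List.mem_cons] at hx
        rcases hx with hx | hx
        · rw [hx, hfu']; linarith
        · have := level_ge f hL0 hx
          rw [hfu'] at this
          linarith
      refine ⟨y ++ p :: L, ?_, ?_, ?_⟩
      · rw [← Multiset.coe_add, ← Multiset.cons_coe, g1, hval, ← Multiset.cons_coe]
        simp only [← Multiset.singleton_add]
        abel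
      · refine join y (u + y.sum) (p :: L) hyy hnd rfl ?_ hlev
        rw [ps_cons]
        exact g2
      · intro x hx
        rw [ps_append] at hx
        rcases List.mem_append.1 hx with hx | hx
        · exact hyav x hx
        · simp only [ps_cons, List.mem_cons] at hx
          rcases hx with hx | hx
          · rw [hx]; exact hyp'
          · exact g3 x hx
    · -- at most two elements
      obtain ⟨y, h1, h2, h3⟩ := small_block f M hinj u R hR h0 hpm hsmall hend
      have hysum : u + ∑ x ∈ R, x = u + y.sum := by
        rw [← Multiset.sum_coe, h1, Finset.sum_val]; rfl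
      have hyy : ∀ x ∈ y, f x = 0 := by
        intro x hx
        apply hR
        rw [← Finset.mem_val, ← h1]
        simpa using hx
      have hlev : ∀ x ∈ ps (u + ∑ x ∈ R, x) (p :: l), f u < f x := by
        intro x hx
        have h4 := level_gt f hl hx
        have h5 : f (u + ∑ x ∈ R, x) = f u := by
          rw [map_add, map_sum, Finset.sum_eq_zero hR, add_zero]
        rw [h5] at h4
        exact h4
      refine ⟨y ++ p :: l, ?_, ?_, ?_⟩
      · rw [← Multiset.coe_add, h1, add_comm]
      · exact join y _ (p :: l) hyy h2 hysum (ps_nodup_of_pos f _ hl _) hlev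
      · intro x hx
        rw [ps_append, ← hysum] at hx
        rcases List.mem_append.1 hx with hx | hx
        · exact h3 x hx
        · exact hav x hx

end

end Pool.Agent.W_MP_2c7c9d_co
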