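import Pool.Agent.W_MP_2c7c9d_co.Grass
import Pool.Agent.W_MP_2c7c9d_co.Insert

/-!
# Rise, then fall

Given a homomorphism `f : G →+ ℚ`, the elements of a zero-sum set `A` are split into those of
positive level (`P`), negative level (`N`) and level zero (`T`).  The ordering first rises through
`P` and `T` and then falls through `N`.
-/

set_option autoImplicit false

namespace Pool.Agent.W_MP_2c7c9d_co

open Finset

section
variable {G : Type*} [AddCommGroup G]

lemma sum_zero_of_ker (f : G →+ ℚ) {S : Multiset G} (hS : ∀ s ∈ S, f s = 0) : f S.sum = 0 := by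
  rw [map_multiset_sum]
  apply Multiset.sum_eq_zero
  intro y hy
  obtain ⟨s, hs, rfl⟩ := Multiset.mem_map.1 hy
  exact hS s hs

lemma ps_decr (f : G →+ ℚ) (l : List G) (hl : ∀ a ∈ l, f a < 0) (u : G) :
    (∀ x ∈ ps u l, f x < f u) ∧ (ps u l).Pairwise (fun x y => f y < f x) := by
  induction l generalizing u with
  | nil => simp
  | cons a l ih =>
    have ha := hl a (by simp)
    obtain ⟨h1, h2⟩ := ih (fun b hb => hl b (by simp [hb])) (u + a)
    have h3 : f (u + a) < f u := by rw [map_add]; linarith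
    refine ⟨?_, ?_⟩
    · intro x hx
      simp only [ps_cons, List.mem_cons] at hx
      rcases hx with rfl | hx
      · exact h3
      · exact (h1 x hx).trans h3
    · rw [ps_cons, List.pairwise_cons]
      exact ⟨h1, h2⟩

lemma sum_neg (f : G →+ ℚ) (l : List G) (hl : ∀ a ∈ l, f a < 0) : f l.sum ≤ 0 := by
  induction l with
  | nil => simp
  | cons a l ih =>
    have h1 := hl a (by simp)
    have h2 := ih (fun b hb => hl b (by simp [hb]))
    rw [List.sum_cons, map_add]
    linarith

lemma ps_getElem (u : G) (l : List G) (i : ℕ) (hi : i < l.length) :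
    (ps u l)[i]'(by rw [ps_length]; exact hi) = u + (l.take (i + 1)).sum := by
  induction l generalizing u i with
  | nil => simp at hi
  | cons a l ih =>
    cases i with
    | zero => simp
    | succ i =>
      simp only [ps_cons, List.getElem_cons_succ, List.take_succ_cons, List.sum_cons]
      rw [ih (u + a) i (by simpa using hi), add_assoc]

/-- the final form of the conclusion -/
lemma distinct_of_nodup (l : List G) (h : (ps 0 l).Nodup) :
    ∀ i j : Fin l.length, (l.take (i.val + 1)).sum = (l.take (j.val + 1)).sum → i = j := by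
  intro i j hij
  have h1 := ps_getElem 0 l i.val i.isLt
  have h2 := ps_getElem 0 l j.val j.isLt
  rw [zero_add] at h1 h2
  have h3 : (ps 0 l)[i.val]'(by rw [ps_length]; exact i.isLt) =
      (ps 0 l)[j.val]'(by rw [ps_length]; exact j.isLt) := by
    rw [h1, h2, hij]
  have := (List.Nodup.getElem_inj_iff h).1 h3
  exact Fin.ext this

lemma ps_map {H : Type*} [AddCommGroup H] (g : G →+ H) (u : G) (l : List G) :
    ps (g u) (l.map g) = (ps u l).map g := by
  induction l generalizing u with
  | nil => rfl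
  | cons a l ih =>
    rw [List.map_cons, ps_cons, ps_cons, List.map_cons, ← map_add, ih]

variable [DecidableEq G]

/-- Rise first (through `P` and the kernel elements `T`), then fall (through `N`). -/
lemma core (f : G →+ ℚ) (A P N T : Finset G) (hA : A.val = P.val + T.val + N.val)
    (hsum : ∑ x ∈ A, x = 0) (hP : ∀ x ∈ P, 0 < f x) (hT : ∀ x ∈ T, f x = 0)
    (hN : ∀ x ∈ N, f x < 0) (h0 : (0 : G) ∉ T) (hpm : ∀ x ∈ T, ∀ y ∈ T, x ≠ y → x + y ≠ 0)
    (hNP : N.card ≤ P.card) (hcard : T.card ≤ 2 ^ P.card + 1) :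
    ∃ l : List G, (↑l : Multiset G) = A.val ∧ (ps 0 l).Nodup := by
  obtain ⟨s, hs⟩ : ∃ s : G, s = P.val.sum + T.val.sum := ⟨_, rfl⟩
  obtain ⟨nl, hnl⟩ : ∃ nl : List G, (↑nl : Multiset G) = N.val := ⟨N.toList, by simp⟩
  have hnlen : nl.length = N.card := by
    rw [← Multiset.coe_card, hnl]; rfl
  have hs0 : s + nl.sum = 0 := by
    have h1 : A.val.sum = 0 := by
      rw [Finset.sum_val]; simpa using hsum
    rw [hA, Multiset.sum_add, Multiset.sum_add, ← hs, ← hnl, Multiset.sum_coe] at h1
    exact h1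
  have hneg : ∀ a ∈ nl, f a < 0 := by
    intro a ha
    apply hN
    rw [← Finset.mem_val, ← hnl]
    simpa using ha
  obtain ⟨d1, d2⟩ := ps_decr f nl hneg s
  have hLnd : (ps s nl).Nodup := by
    refine d2.imp ?_
    intro a b hab h
    rw [h] at hab
    exact lt_irrefl _ hab
  have hTsum : f (∑ x ∈ T, x) = 0 := by rw [map_sum, Finset.sum_eq_zero hT]
  have hLinj : ∀ x ∈ ps s nl, ∀ y ∈ ps s nl, f x = f y → x = y := by
    have : ∀ L : List G, L.Pairwise (fun x y => f y < f x) →
        ∀ x ∈ L, ∀ y ∈ L, f x = f y → x = y := by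
      intro L hL
      induction L with
      | nil => simp
      | cons a L ih =>
        rw [List.pairwise_cons] at hL
        intro x hx y hy hxy
        simp only [List.mem_cons] at hx hy
        rcases hx with rfl | hx <;> rcases hy with rfl | hy
        · rfl
        · have := hL.1 y hy; linarith
        · have := hL.1 x hx; linarith
        · exact ih hL.2 x hx y hy hxy
    exact this _ d2
  -- the points of the falling part, except the last one
  obtain ⟨M, hMdef⟩ : ∃ M : Finset G, M = (ps s nl).toFinset.erase 0 := ⟨_, rfl⟩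
  have hMmem : ∀ x, x ∈ M ↔ x ≠ 0 ∧ x ∈ ps s nl := by
    intro x
    rw [hMdef, Finset.mem_erase, List.mem_toFinset]
  have h0mem : nl ≠ [] → (0 : G) ∈ ps s nl := fun hne => by
    rw [← hs0]; exact last_mem_ps s nl hne
  have hMpos : ∀ m ∈ M, 0 < f m := by
    intro m hm
    rw [hMmem] at hm
    obtain ⟨l₁, l₂, e1, e2, e3⟩ := mem_ps hm.2
    have e4 : m + l₂.sum = 0 := by
      rw [← hs0, e1, e2, List.sum_append, add_assoc]
    have e5 : f l₂.sum ≤ 0 := sum_neg f l₂ (fun b hb => hneg b (by rw [e1]; simp [hb]))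
    have e6 : f m + f l₂.sum = 0 := by rw [← map_add, e4, map_zero]
    have e7 : nl ≠ [] := by
      rw [e1]
      intro h
      exact e3 (List.append_eq_nil_iff.1 h).1
    have e8 : f m ≠ 0 := by
      intro h
      exact hm.1 (hLinj m hm.2 0 (h0mem e7) (by rw [h, map_zero]))
    exact lt_of_le_of_ne (by linarith) (Ne.symm e8)
  have hMinj : Set.InjOn f M := by
    intro x hx y hy hxy
    have hx' := (hMmem x).1 hx
    have hy' := (hMmem y).1 hy
    exact hLinj x hx'.2 y hy'.2 hxy
  have hMcard : M = ∅ ∨ M.card + 1 ≤ P.card := by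
    by_cases hne : nl = []
    · left
      rw [hMdef, hne]; simp
    · right
      have h1 : (0 : G) ∈ (ps s nl).toFinset := List.mem_toFinset.2 (h0mem hne)
      have h4 : (ps s nl).toFinset.card = N.card := by
        rw [List.toFinset_card_of_nodup hLnd, ps_length, hnlen]
      have h5 : 0 < (ps s nl).toFinset.card := Finset.card_pos.2 ⟨0, h1⟩
      rw [hMdef, Finset.card_erase_of_mem h1]
      omega
  have hsP : ∑ x ∈ T, x + ∑ p ∈ P, p = s := by
    rw [hs, Finset.sum_val, Finset.sum_val, add_comm]; rfl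
  -- order `P`, starting from the sum of `T`
  obtain ⟨l, h1, h2⟩ := grasshopper f P.card (∑ x ∈ T, x) P M rfl hP
    (fun m hm => by rw [hTsum]; exact hMpos m hm) hMinj
    (by
      rw [hsP]
      intro h
      exact lt_irrefl _ (d1 s ((hMmem s).1 h).2)) hMcard
  have hlP : ∀ p ∈ l, 0 < f p := by
    intro p hp
    apply hP
    rw [← Finset.mem_val, ← h1]
    simpa using hp
  have hllen : l.length = P.card := by
    rw [← Multiset.coe_card, h1]; rfl
  -- insert the elements of `T`
  obtain ⟨L, g1, g2, g3⟩ := insertion f M hMinj l 0 T hlP hT h0 hpm (by rw [hllen]; exact hcard)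
    (by
      rw [zero_add]
      intro h
      have := hMpos _ h
      rw [hTsum] at this
      exact lt_irrefl _ this)
    (by rw [zero_add]; exact h2)
  have hLsum : L.sum = s := by
    rw [← Multiset.sum_coe, g1, h1, Multiset.sum_add, hs]
  rw [List.nodup_cons] at g2
  refine ⟨L ++ nl, ?_, ?_⟩
  · rw [← Multiset.coe_add, g1, h1, hnl, hA]
  · rw [ps_append, zero_add, hLsum, List.nodup_append]
    refine ⟨g2.2, hLnd, ?_⟩
    intro a ha b hb hab
    subst hab
    have ha0 : a ≠ 0 := fun h => g2.1 (h ▸ ha)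
    exact g3 a ha ((hMmem a).2 ⟨ha0, hb⟩)

/-- transfer from `G × ℚ` back to `G`. -/
lemma of_weight (A : Finset G) (φ : G → ℚ)
    (hrel : ∀ S ⊆ A, ∑ x ∈ S, x = 0 → ∑ x ∈ S, φ x = 0)
    (l : List (G × ℚ)) (hl : (↑l : Multiset (G × ℚ)) = A.val.map (fun a => (a, φ a)))
    (hnd : (ps 0 l).Nodup) :
    ∃ l : List G, (↑l : Multiset G) = A.val ∧ (ps 0 l).Nodup := by
  have hmap : (↑(l.map Prod.fst) : Multiset G) = A.val := by
    rw [← Multiset.map_coe, hl, Multiset.map_map]
    simp
  refine ⟨l.map Prod.fst, hmap, ?_⟩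
  have h1 : ps (0 : G) (l.map Prod.fst) = (ps 0 l).map Prod.fst := by
    have := ps_map (AddMonoidHom.fst G ℚ) 0 l
    simpa using this
  rw [h1]
  have hlnd : (l.map Prod.fst).Nodup := by
    rw [← Multiset.coe_nodup, hmap]; exact A.nodup
  -- segments
  have hseg : ∀ m : List (G × ℚ), m.Sublist l → m.sum.1 = 0 → m.sum.2 = 0 := by
    intro m hm h0
    have hmnd : (m.map Prod.fst).Nodup := hlnd.sublist (hm.map Prod.fst)
    have hmem : ∀ x ∈ m, x.1 ∈ A ∧ x.2 = φ x.1 := by
      intro x hx
      have hxl : x ∈ (↑l : Multiset (G × ℚ)) := by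
        simpa using hm.subset hx
      rw [hl, Multiset.mem_map] at hxl
      obtain ⟨a, ha, rfl⟩ := hxl
      exact ⟨ha, rfl⟩
    have e1 : ∑ x ∈ (m.map Prod.fst).toFinset, x = m.sum.1 := by
      rw [List.sum_toFinset _ hmnd]
      have : m.sum.1 = (AddMonoidHom.fst G ℚ) m.sum := rfl
      rw [this, map_list_sum, List.map_map]
      rfl
    have e2 : ∑ x ∈ (m.map Prod.fst).toFinset, φ x = m.sum.2 := by
      rw [List.sum_toFinset _ hmnd]
      have : m.sum.2 = (AddMonoidHom.snd G ℚ) m.sum := rfl
      rw [this, map_list_sum, List.map_map]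
      congr 1
      apply List.map_congr_left
      intro x hx
      exact (hmem x hx).2.symm
    rw [← e2]
    apply hrel
    · intro x hx
      rw [List.mem_toFinset, List.mem_map] at hx
      obtain ⟨y, hy, rfl⟩ := hx
      exact (hmem y hy).1
    · rw [e1, h0]
  refine List.Nodup.map_on ?_ hnd
  intro x hx y hy hxy
  obtain ⟨x₁, x₂, ex1, ex2, _⟩ := mem_ps hx
  obtain ⟨y₁, y₂, ey1, ey2, _⟩ := mem_ps hy
  rw [zero_add] at ex2 ey2
  have hpre : x₁ <+: y₁ ∨ y₁ <+: x₁ := by
    apply List.prefix_or_prefix_of_prefix (l₃ := l)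
    · exact ⟨x₂, ex1.symm⟩
    · exact ⟨y₂, ey1.symm⟩
  have key : ∀ p q : List (G × ℚ), p <+: q → q <+: l → p.sum.1 = q.sum.1 → p.sum = q.sum := by
    rintro p _ ⟨m, rfl⟩ hq h
    rw [List.sum_append] at h ⊢
    have hm0 : m.sum.1 = 0 := by
      have : p.sum.1 = p.sum.1 + m.sum.1 := h
      simpa using this
    have hm2 := hseg m ?_ hm0
    · have : m.sum = 0 := Prod.ext hm0 hm2
      rw [this, add_zero]
    · obtain ⟨r, hr⟩ := hq
      rw [← hr]
      have h1 : m.Sublist (p ++ m) := List.sublist_append_right p m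
      exact h1.trans (List.sublist_append_left _ r)
  rcases hpre with h | h
  · rw [ex2, ey2]
    exact key x₁ y₁ h ⟨y₂, ey1.symm⟩ (by rw [← ex2, ← ey2]; exact hxy)
  · rw [ex2, ey2]
    exact (key y₁ x₁ h ⟨x₂, ex1.symm⟩ (by rw [← ex2, ← ey2]; exact hxy.symm)).symm

end

/-- the version with a weight function: the zero set of the weight may be exponentially large
compared with the rest of `A`. -/
theorem main_weight {G : Type*} [AddCommGroup G] [DecidableEq G] (A : Finset G) (h0 : (0 : G) ∉ A)
    (hpm : ∀ x ∈ A, -x ∈ A → -x = x) (hsum : ∑ x ∈ A, x = 0) (φ : G → ℚ)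
    (hrel : ∀ S ⊆ A, ∑ x ∈ S, x = 0 → ∑ x ∈ S, φ x = 0)
    (hcard : (A.filter (fun a => φ a = 0)).card ≤
      2 ^ ((A.card - (A.filter (fun a => φ a = 0)).card + 1) / 2) + 1) :
    ∃ l : List G, (↑l : Multiset G) = A.val ∧ (ps 0 l).Nodup := by
  classical
  obtain ⟨f, hf⟩ : ∃ f : G × ℚ →+ ℚ, ∀ x, f x = x.2 := ⟨AddMonoidHom.snd G ℚ, fun _ => rfl⟩
  let e : G ↪ G × ℚ := ⟨fun a => (a, φ a), fun a b h => congrArg Prod.fst h⟩
  have hfe : ∀ a, f (e a) = φ a := fun a => hf _
  let B : Finset (G × ℚ) := A.map e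
  let P : Finset (G × ℚ) := (A.filter (fun a => 0 < φ a)).map e
  let N : Finset (G × ℚ) := (A.filter (fun a => φ a < 0)).map e
  let T : Finset (G × ℚ) := (A.filter (fun a => φ a = 0)).map e
  have hsplit : A.val = (A.filter (fun a => 0 < φ a)).val + (A.filter (fun a => φ a = 0)).val +
      (A.filter (fun a => φ a < 0)).val := by
    have h1 : A = ((A.filter (fun a => 0 < φ a)) ∪ (A.filter (fun a => φ a = 0))) ∪
        (A.filter (fun a => φ a < 0)) := by
      ext x
      simp only [Finset.mem_union, Finset.mem_filter]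
      constructor
      · intro hx
        rcases lt_trichotomy (φ x) 0 with h | h | h
        · exact Or.inr ⟨hx, h⟩
        · exact Or.inl (Or.inr ⟨hx, h⟩)
        · exact Or.inl (Or.inl ⟨hx, h⟩)
      · rintro ((h | h) | h) <;> exact h.1
    have h2 : Disjoint (A.filter (fun a => 0 < φ a)) (A.filter (fun a => φ a = 0)) := by
      rw [Finset.disjoint_left]
      intro x hx hx'
      simp only [Finset.mem_filter] at hx hx'
      linarith [hx.2, hx'.2]
    have h3 : Disjoint ((A.filter (fun a => 0 < φ a)) ∪ (A.filter (fun a => φ a = 0)))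
        (A.filter (fun a => φ a < 0)) := by
      rw [Finset.disjoint_left]
      intro x hx hx'
      simp only [Finset.mem_union, Finset.mem_filter] at hx hx'
      rcases hx with hx | hx <;> linarith [hx.2, hx'.2]
    rw [← Finset.disjUnion_eq_union _ _ h2] at h1 h3
    rw [← Finset.disjUnion_eq_union _ _ h3] at h1
    conv_lhs => rw [h1]
    rfl
  have hcards : A.card = (A.filter (fun a => 0 < φ a)).card + (A.filter (fun a => φ a = 0)).card +
      (A.filter (fun a => φ a < 0)).card := by
    have := congrArg Multiset.card hsplit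
    rw [Multiset.card_add, Multiset.card_add] at this
    exact this
  have hBval : B.val = P.val + T.val + N.val := by
    simp only [B, P, N, T, Finset.map_val]
    rw [← Multiset.map_add, ← Multiset.map_add, ← hsplit]
  have hBsum : ∑ x ∈ B, x = 0 := by
    rw [Finset.sum_map]
    have h1 : ∑ x ∈ A, e x = ((∑ x ∈ A, x, ∑ x ∈ A, φ x) : G × ℚ) := by
      rw [Prod.ext_iff]
      constructor
      · rw [Prod.fst_sum]; rfl
      · rw [Prod.snd_sum]; rfl
    rw [h1, hsum, hrel A (Finset.Subset.refl _) hsum]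
    rfl
  have hPpos : ∀ x ∈ P, 0 < f x := by
    intro x hx
    simp only [P, Finset.mem_map, Finset.mem_filter] at hx
    obtain ⟨a, ha, rfl⟩ := hx
    rw [hfe]; exact ha.2
  have hNneg : ∀ x ∈ N, f x < 0 := by
    intro x hx
    simp only [N, Finset.mem_map, Finset.mem_filter] at hx
    obtain ⟨a, ha, rfl⟩ := hx
    rw [hfe]; exact ha.2
  have hTz : ∀ x ∈ T, f x = 0 := by
    intro x hx
    simp only [T, Finset.mem_map, Finset.mem_filter] at hx
    obtain ⟨a, ha, rfl⟩ := hx
    rw [hfe]; exact ha.2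
  have hT0 : (0 : G × ℚ) ∉ T := by
    intro hx
    simp only [T, Finset.mem_map, Finset.mem_filter] at hx
    obtain ⟨a, ha, hx⟩ := hx
    have : a = 0 := congrArg Prod.fst hx
    exact h0 (this ▸ ha.1)
  have hTpm : ∀ x ∈ T, ∀ y ∈ T, x ≠ y → x + y ≠ 0 := by
    intro x hx y hy hxy hadd
    simp only [T, Finset.mem_map, Finset.mem_filter] at hx hy
    obtain ⟨a, ha, rfl⟩ := hx
    obtain ⟨b, hb, rfl⟩ := hy
    have h1 : a + b = 0 := congrArg Prod.fst hadd
    have h2 : b = -a := (neg_eq_of_add_eq_zero_right h1).symm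
    have h3 : -a = a := hpm a ha.1 (h2 ▸ hb.1)
    apply hxy
    rw [h2, h3]
  have hPc : P.card = (A.filter (fun a => 0 < φ a)).card := Finset.card_map _
  have hNc : N.card = (A.filter (fun a => φ a < 0)).card := Finset.card_map _
  have hTc : T.card = (A.filter (fun a => φ a = 0)).card := Finset.card_map _
  have hBmap : B.val = A.val.map (fun a => (a, φ a)) := by
    simp only [B, Finset.map_val]; rfl
  have hbound : ∀ n : ℕ, A.card - T.card ≤ 2 * n → T.card ≤ 2 ^ n + 1 := by
    intro n hn
    rw [← hTc] at hcard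
    refine hcard.trans ?_
    have : (A.card - T.card + 1) / 2 ≤ n := by omega
    have := Nat.pow_le_pow_right (show 1 ≤ 2 by norm_num) this
    omega
  rcases le_total N.card P.card with hle | hle
  · obtain ⟨l, h1, h2⟩ := core f B P N T hBval hBsum hPpos hTz hNneg hT0 hTpm hle
      (hbound _ (by omega))
    exact of_weight A φ hrel l (by rw [h1, hBmap]) h2
  · -- use `-f`
    obtain ⟨l, h1, h2⟩ := core (-f) B N P T
      (by rw [hBval]; abel) hBsum
      (fun x hx => by
        have := hNneg x hx
        simp only [AddMonoidHom.neg_apply]; linarith)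
      (fun x hx => by
        have := hTz x hx
        simp only [AddMonoidHom.neg_apply]; linarith)
      (fun x hx => by
        have := hPpos x hx
        simp only [AddMonoidHom.neg_apply]; linarith)
      hT0 hTpm hle (hbound _ (by omega))
    exact of_weight A φ hrel l (by rw [h1, hBmap]) h2

end Pool.Agent.W_MP_2c7c9d_co
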