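import Pool.Agent.W_MP_2c7c9d_co.Basic

/-!
# A grasshopper lemma in an abelian group with a level function

`P` is a finite set of group elements of positive level, `M` a finite set of points with pairwise
distinct levels, `|M| ≤ |P| - 1`, and the endpoint `u + ∑ P` is not in `M`.  Then `P` can be
ordered so that all its partial sums from `u` avoid `M`.  (For `G = ℝ` this is Problem 6 of IMO
2009.  Here distinct elements of `P` may have the same level.)
-/

set_option autoImplicit false

namespace Pool.Agent.W_MP_2c7c9d_co

open Finset

section
variable {G : Type*} [AddCommGroup G] [DecidableEq G]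

theorem grasshopper (f : G →+ ℚ) : ∀ (n : ℕ) (u : G) (P M : Finset G),
    P.card = n → (∀ p ∈ P, 0 < f p) → (∀ m ∈ M, f u < f m) → Set.InjOn f M →
    u + ∑ p ∈ P, p ∉ M → (M = ∅ ∨ M.card + 1 ≤ n) →
    ∃ l : List G, (↑l : Multiset G) = P.val ∧ Avoid M u l := by
  intro n
  induction n using Nat.strong_induction_on with
  | _ n ih =>
  intro u P M hPn hP hM hinj hend hMn
  rcases M.eq_empty_or_nonempty with rfl | hMne
  · exact ⟨P.toList, by simp, by simp [Avoid]⟩
  have hMn' : M.card + 1 ≤ n := by
    rcases hMn with h | h
    · exact absurd h hMne.ne_empty
    · exact h
  have hMpos : 0 < M.card := hMne.card_pos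
  have hPne : P.Nonempty := by rw [← Finset.card_pos]; omega
  obtain ⟨a, haP, hamax⟩ := P.exists_max_image f hPne
  have ha0 : 0 < f a := hP a haP
  obtain ⟨d, hdM, hdmin⟩ := M.exists_min_image f hMne
  have hPa : ∑ p ∈ P, p = a + ∑ p ∈ P.erase a, p := (Finset.add_sum_erase P (fun p => p) haP).symm
  have hPav : P.val = a ::ₘ (P.erase a).val := by
    rw [Finset.erase_val]; exact (Multiset.cons_erase haP).symm
  have hPe : ∀ p ∈ P.erase a, 0 < f p := fun p hp => hP p (Finset.mem_of_mem_erase hp)
  have hPecard : (P.erase a).card = n - 1 := by rw [Finset.card_erase_of_mem haP, hPn]
  have hfua : f (u + a) = f u + f a := map_add f u a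
  by_cases hB : f d < f u + f a
  · by_cases hua : u + a ∈ M
    · -- jump over two points of `M` with two elements
      obtain ⟨b, hb, hb1, hb2⟩ : ∃ b ∈ P.erase a, u + b ∉ M ∧ u + b + a ∉ M := by
        by_contra hcon
        push Not at hcon
        have : (P.erase a).card ≤ (M.erase (u + a)).card := by
          classical
          refine Finset.card_le_card_of_injOn (fun b => if u + b ∈ M then u + b else u + b + a)
            ?_ ?_
          · intro b hb
            have hb' : b ∈ P.erase a := hb
            have hbne := Finset.ne_of_mem_erase hb'
            have hbpos := hPe b hb'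
            simp only
            split_ifs with h
            · simp only [Finset.coe_erase, Set.mem_sdiff, Finset.mem_coe, Set.mem_singleton_iff]
              exact ⟨h, fun h' => hbne (add_left_cancel h')⟩
            · simp only [Finset.coe_erase, Set.mem_sdiff, Finset.mem_coe, Set.mem_singleton_iff]
              refine ⟨hcon b hb' h, ?_⟩
              intro h'
              have := congrArg f h'
              simp only [map_add] at this
              linarith
          · intro b hb c hc hbc
            have hb' : b ∈ P.erase a := hb
            have hc' : c ∈ P.erase a := hc
            have hbpos := hPe b hb'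
            have hcpos := hPe c hc'
            have hbmax := hamax b (Finset.mem_of_mem_erase hb')
            have hcmax := hamax c (Finset.mem_of_mem_erase hc')
            simp only at hbc
            split_ifs at hbc with h h' h'
            · exact add_left_cancel hbc
            · have := congrArg f hbc
              simp only [map_add] at this
              linarith
            · have := congrArg f hbc
              simp only [map_add] at this
              linarith
            · exact add_left_cancel (add_right_cancel hbc)
        rw [hPecard, Finset.card_erase_of_mem hua] at this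
        omega
      have hbpos := hPe b hb
      have hfu' : f (u + b + a) = f u + f b + f a := by rw [map_add, map_add]
      have hPb : ∑ p ∈ P.erase a, p = b + ∑ p ∈ (P.erase a).erase b, p :=
        (Finset.add_sum_erase (P.erase a) (fun p => p) hb).symm
      have hPbv : (P.erase a).val = b ::ₘ ((P.erase a).erase b).val := by
        rw [Finset.erase_val (P.erase a)]; exact (Multiset.cons_erase hb).symm
      have hPee : ∀ p ∈ (P.erase a).erase b, 0 < f p :=
        fun p hp => hPe p (Finset.mem_of_mem_erase hp)
      have hne : u + a ∈ M.erase d := by
        refine Finset.mem_erase.2 ⟨?_, hua⟩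
        rintro rfl
        rw [hfua] at hB
        exact lt_irrefl _ hB
      have hcard : (M.filter (fun m => f u + f b + f a < f m)).card + 2 ≤ M.card := by
        have h1 : M.filter (fun m => f u + f b + f a < f m) ⊆ (M.erase d).erase (u + a) := by
          intro m hm
          simp only [Finset.mem_filter] at hm
          refine Finset.mem_erase.2 ⟨?_, Finset.mem_erase.2 ⟨?_, hm.1⟩⟩
          · rintro rfl
            have := hm.2
            rw [map_add] at this
            linarith
          · rintro rfl
            linarith [hm.2]
        have h2 := Finset.card_le_card h1
        have h3 : 0 < (M.erase d).card := Finset.card_pos.2 ⟨_, hne⟩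
        rw [Finset.card_erase_of_mem hne] at h2
        rw [Finset.card_erase_of_mem hdM] at h2 h3
        omega
      obtain ⟨l, h1, h2⟩ := ih (n - 2) (by omega) (u + b + a) ((P.erase a).erase b)
        (M.filter (fun m => f u + f b + f a < f m))
        (by rw [Finset.card_erase_of_mem hb, hPecard]; omega) hPee
        (fun m hm => by rw [hfu']; exact (Finset.mem_filter.1 hm).2)
        (hinj.mono (by intro m hm; simp at hm ⊢; exact hm.1))
        (by
          have : u + b + a + ∑ p ∈ (P.erase a).erase b, p = u + ∑ p ∈ P, p := by
            rw [hPa, hPb]; abel
          rw [this]
          simp [hend])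
        (Or.inr (by omega))
      refine ⟨b :: a :: l, ?_, ?_⟩
      · rw [← Multiset.cons_coe, ← Multiset.cons_coe, h1, hPav, hPbv, Multiset.cons_swap]
      · intro x hx
        simp only [ps_cons, List.mem_cons] at hx
        rcases hx with rfl | rfl | hx
        · exact hb1
        · exact hb2
        · intro hxM
          have hl0 : ∀ p ∈ l, 0 < f p := fun p hp => hPee p (by
            rw [← Finset.mem_val, ← h1]; simpa using hp)
          have h4 := level_gt f hl0 hx
          rw [hfu'] at h4
          exact h2 x hx (by simp [hxM, h4])
    · -- jump over `d` with `a`
      have hcard : (M.filter (fun m => f u + f a < f m)).card + 1 ≤ M.card := by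
        have h1 : M.filter (fun m => f u + f a < f m) ⊆ M.erase d := by
          intro m hm
          simp only [Finset.mem_filter] at hm
          refine Finset.mem_erase.2 ⟨?_, hm.1⟩
          rintro rfl
          linarith [hm.2]
        have h2 := Finset.card_le_card h1
        rw [Finset.card_erase_of_mem hdM] at h2
        omega
      obtain ⟨l, h1, h2⟩ := ih (n - 1) (by omega) (u + a) (P.erase a)
        (M.filter (fun m => f u + f a < f m)) hPecard hPe
        (fun m hm => by rw [hfua]; exact (Finset.mem_filter.1 hm).2)
        (hinj.mono (by intro m hm; simp at hm ⊢; exact hm.1))
        (by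
          have : u + a + ∑ p ∈ P.erase a, p = u + ∑ p ∈ P, p := by rw [hPa]; abel
          rw [this]
          simp [hend])
        (Or.inr (by omega))
      refine ⟨a :: l, ?_, ?_⟩
      · rw [← Multiset.cons_coe, h1, hPav]
      · intro x hx
        simp only [ps_cons, List.mem_cons] at hx
        rcases hx with rfl | hx
        · exact hua
        · intro hxM
          have hl0 : ∀ p ∈ l, 0 < f p := fun p hp => hPe p (by
            rw [← Finset.mem_val, ← h1]; simpa using hp)
          have h4 := level_gt f hl0 hx
          rw [hfua] at h4
          exact h2 x hx (by simp [hxM, h4])
  · -- every element of `P` is at most as long as the distance to the first point `d` of `M`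
    have had : f u + f a ≤ f d := not_lt.1 hB
    have hcard : (M.filter (fun m => f d < f m)).card + 1 ≤ M.card := by
      have h1 : M.filter (fun m => f d < f m) ⊆ M.erase d := by
        intro m hm
        simp only [Finset.mem_filter] at hm
        refine Finset.mem_erase.2 ⟨?_, hm.1⟩
        rintro rfl
        exact lt_irrefl _ hm.2
      have h2 := Finset.card_le_card h1
      rw [Finset.card_erase_of_mem hdM] at h2
      omega
    have hendeq : u + a + ∑ p ∈ P.erase a, p = u + ∑ p ∈ P, p := by rw [hPa]; abel
    obtain ⟨w, h1, h2⟩ := ih (n - 1) (by omega) (u + a) (P.erase a)
      (M.filter (fun m => f d < f m)) hPecard hPe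
      (fun m hm => by
        rw [hfua]; exact lt_of_le_of_lt had (Finset.mem_filter.1 hm).2)
      (hinj.mono (by intro m hm; simp at hm ⊢; exact hm.1))
      (by rw [hendeq]; simp [hend])
      (Or.inr (by omega))
    have hwmem : ∀ x, x ∈ w ↔ x ∈ P.erase a := by
      intro x
      rw [← Multiset.mem_coe, h1, Finset.mem_val]
    have hw0 : ∀ p ∈ w, 0 < f p := fun p hp => hPe p ((hwmem p).1 hp)
    -- a point of `M` other than `d` is on a level above that of `d`
    have hMd : ∀ x ∈ M, x ≠ d → f d < f x := by
      intro x hx hne
      refine lt_of_le_of_ne (hdmin x hx) ?_
      intro h
      exact hne (hinj hx hdM h.symm)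
    by_cases hit : ∃ w1 w2, w = w1 ++ w2 ∧ u + a + w1.sum = d
    · obtain ⟨w1, w2, rfl, hd⟩ := hit
      cases w2 with
      | nil =>
        exfalso
        apply hend
        rw [← hendeq]
        have : (w1 ++ []).sum = ∑ p ∈ P.erase a, p := by
          rw [← Multiset.sum_coe, h1, Finset.sum_val]; rfl
        rw [← this, List.append_nil, hd]
        exact hdM
      | cons b w2 =>
        have hbP : b ∈ P.erase a := (hwmem b).1 (by simp)
        have hbpos := hPe b hbP
        have hba := hamax b (Finset.mem_of_mem_erase hbP)
        have hbne : b ≠ a := Finset.ne_of_mem_erase hbP
        have hw10 : ∀ p ∈ w1, 0 < f p := fun p hp => hw0 p (by simp [hp])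
        have hw20 : ∀ p ∈ w2, 0 < f p := fun p hp => hw0 p (by simp [hp])
        have hfd : f d = f u + f a + f w1.sum := by rw [← hd, map_add, map_add]
        refine ⟨w1 ++ b :: a :: w2, ?_, ?_⟩
        · rw [hPav, ← h1, ← Multiset.coe_add, ← Multiset.coe_add, ← Multiset.cons_coe,
            ← Multiset.cons_coe, ← Multiset.cons_coe]
          simp only [← Multiset.singleton_add]
          abel
        · intro x hx
          rw [ps_append] at hx
          rcases List.mem_append.1 hx with hx | hx
          · -- below the level of `d`
            intro hxM
            have h5 := level_le f (fun p hp => (hw10 p hp).le) hx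
            have h6 := hdmin x hxM
            linarith
          · simp only [ps_cons, List.mem_cons] at hx
            have hpt : u + w1.sum + b + a = d + b := by rw [← hd]; abel
            have hold : ∀ y, (y = d + b ∨ y ∈ ps (d + b) w2) → y ∉ M := by
              intro y hy hyM
              have hmem : y ∈ ps (u + a) (w1 ++ b :: w2) := by
                rw [ps_append, hd]
                apply List.mem_append_right
                simpa using hy
              have hlev : f d < f y := by
                have : y ∈ ps d (b :: w2) := by simpa using hy
                refine level_gt f ?_ this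
                intro p hp
                exact hw0 p (List.mem_append_right _ hp)
              exact h2 y hmem (by simp [hyM, hlev])
            rcases hx with hx | hx | hx
            · intro hxM
              have hfx : f x = f d - f a + f b := by
                rw [hx, map_add, map_add, hfd]; ring
              by_cases hxd : x = d
              · apply hbne
                have h7 : u + w1.sum + b = u + w1.sum + a := by
                  rw [← hx, hxd, ← hd]; abel
                exact add_left_cancel h7
              · have := hMd x hxM hxd
                linarith
            · exact hold x (Or.inl (hx.trans hpt))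
            · rw [hpt] at hx
              exact hold x (Or.inr hx)
    · refine ⟨a :: w, ?_, ?_⟩
      · rw [← Multiset.cons_coe, h1, hPav]
      · intro x hx hxM
        have hxd : x ≠ d := by
          rintro rfl
          apply hit
          simp only [ps_cons, List.mem_cons] at hx
          rcases hx with hx | hx
          · exact ⟨[], w, rfl, by rw [List.sum_nil, add_zero]; exact hx.symm⟩
          · obtain ⟨l₁, l₂, g1, g2, _⟩ := mem_ps hx
            exact ⟨l₁, l₂, g1, g2.symm⟩
        have hlev := hMd x hxM hxd
        simp only [ps_cons, List.mem_cons] at hx
        rcases hx with hx | hx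
        · rw [hx, hfua] at hlev
          linarith
        · exact h2 x hx (by simp [hxM, hlev])

end

end Pool.Agent.W_MP_2c7c9d_co
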